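import Pool.Agent.Helper3_PPE.Stmts
import Pool.Agent.Helper86_PPZ.Alt

/-! # Squad PPE, module ALT: `θ` is algebraic over `k(x, z)` (port of `Helper86_PPZ/Alt.lean`) -/

set_option autoImplicit false

universe u

namespace Pool.Agent.PPE.H6

open MvPolynomial PGH PPX PPZ PPZ.H86

/-- ALT -/
theorem alt (K₀ : ℕ) : AltStmt.{u} K₀ := by
  intro k _ _ _ N₁ N₂ a b _ _ s₁ s₂ ρ₁ ρ₂ q hq
  obtain ⟨K, hK⟩ := exists_K s₁ s₂ (fun l c => ⌊((l : ℕ) : ℚ) * ρ₁ c⌋)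
    (fun l c => - ⌊((l : ℕ) : ℚ) * ρ₂ c⌋)
  refine ⟨∑ l : Fin 17, Polynomial.C (cf a b s₁ s₂ ρ₁ ρ₂ q K l) * Polynomial.X ^ (2 * (l : ℕ)),
    ?_, ?_, ?_⟩
  · obtain ⟨l, hl⟩ : ∃ l, q l ≠ 0 := by
      by_contra hcon
      push Not at hcon
      exact hq (funext hcon)
    intro h0
    have h1 := congrArg (fun p => Polynomial.coeff p (2 * (l : ℕ))) h0
    simp only [Polynomial.finset_sum_coeff, Polynomial.coeff_zero,
      Polynomial.coeff_C_mul_X_pow] at h1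
    rw [Finset.sum_eq_single l] at h1
    · rw [if_pos rfl] at h1
      exact cf_ne a b s₁ s₂ ρ₁ ρ₂ q K l hl h1
    · intro l' _ hne
      rw [if_neg]
      intro he
      exact hne (Fin.ext (by omega))
    · intro h
      exact absurd (Finset.mem_univ l) h
  · refine Polynomial.natDegree_sum_le_of_forall_le _ _ fun l _ => ?_
    refine le_trans (Polynomial.natDegree_C_mul_X_pow_le _ _) ?_
    have := l.2
    omega
  · intro C hC
    have hx : ∀ c : k, C.x - algebraMap k C.E c ≠ 0 := by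
      intro c h
      exact C.dx ((C.ker C.x).2 ⟨c, (sub_eq_zero.1 h).symm⟩)
    have hz : ∀ c : k, C.z - algebraMap k C.E c ≠ 0 := by
      intro c h
      exact C.dz ((C.ker C.z).2 ⟨c, (sub_eq_zero.1 h).symm⟩)
    have hf : C.f ≠ 0 := Finset.prod_ne_zero_iff.2 fun i _ => hx _
    unfold RootTh
    have key : ∀ l : Fin 17, C.ev2 (cf a b s₁ s₂ ρ₁ ρ₂ q K l) * C.th ^ (2 * (l : ℕ)) =
        (C.f ^ 32 * (∏ c ∈ s₁, (C.x - algebraMap k C.E c) ^ K) *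
          ∏ c ∈ s₂, (C.z - algebraMap k C.E c) ^ K) *
        (C.ev2 (q l) * C.th ^ (l : ℕ) * phs C s₁ s₂ ρ₁ ρ₂ l) := by
      intro l
      have e1 : C.ev2 (cf a b s₁ s₂ ρ₁ ρ₂ q K l) = C.ev2 (q l) * C.g ^ (2 * (l : ℕ)) *
          C.f ^ (32 - 2 * (l : ℕ)) *
          (∏ c ∈ s₁, (C.x - algebraMap k C.E c) ^ ((K : ℤ) + ⌊((l : ℕ) : ℚ) * ρ₁ c⌋).toNat) *
          ∏ c ∈ s₂, (C.z - algebraMap k C.E c) ^
            ((K : ℤ) + (- ⌊((l : ℕ) : ℚ) * ρ₂ c⌋)).toNat := by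
        unfold cf BC.ev2 BC.f BC.g
        simp only [map_mul, map_pow, map_prod, map_sub, aeval_X, aeval_C,
          Matrix.cons_val_zero, Matrix.cons_val_one]
      rw [e1, prod_zpow s₁ (fun c => C.x - algebraMap k C.E c) (fun c _ => hx c) K
        (fun c => ⌊((l : ℕ) : ℚ) * ρ₁ c⌋) (hK l).1,
        prod_zpow s₂ (fun c => C.z - algebraMap k C.E c) (fun c _ => hz c) K
        (fun c => - ⌊((l : ℕ) : ℚ) * ρ₂ c⌋) (hK l).2]
      unfold phs BC.ph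
      have h32 : C.f ^ 32 = C.f ^ (32 - 2 * (l : ℕ)) * C.f ^ (2 * (l : ℕ)) := by
        rw [← pow_add]
        congr 1
        have := l.2
        omega
      have hfl : C.f ^ (2 * (l : ℕ)) ≠ 0 := pow_ne_zero _ hf
      have hq2 : (C.th * C.g ^ 2 / C.f ^ 2) ^ (l : ℕ) * C.f ^ (2 * (l : ℕ)) =
          C.th ^ (l : ℕ) * C.g ^ (2 * (l : ℕ)) := by
        rw [div_pow, mul_pow, ← pow_mul, ← pow_mul, div_mul_cancel₀ _ hfl]
      have ht : C.th ^ (2 * (l : ℕ)) = C.th ^ (l : ℕ) * C.th ^ (l : ℕ) := by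
        rw [← pow_add]; congr 1; omega
      rw [h32, ht]
      linear_combination (- C.ev2 (q l) * C.f ^ (32 - 2 * (l : ℕ)) * C.th ^ (l : ℕ) *
        (∏ c ∈ s₁, (C.x - algebraMap k C.E c) ^ K) *
        (∏ c ∈ s₁, (C.x - algebraMap k C.E c) ^ ⌊((l : ℕ) : ℚ) * ρ₁ c⌋) *
        (∏ c ∈ s₂, (C.z - algebraMap k C.E c) ^ K) *
        (∏ c ∈ s₂, (C.z - algebraMap k C.E c) ^ (- ⌊((l : ℕ) : ℚ) * ρ₂ c⌋))) * hq2
    have e2 : (∑ l : Fin 17, Polynomial.C (cf a b s₁ s₂ ρ₁ ρ₂ q K l) *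
        Polynomial.X ^ (2 * (l : ℕ))).eval₂
        (aeval ![C.x, C.z] : MvPolynomial (Fin 2) k →ₐ[k] C.E).toRingHom C.th =
        ∑ l : Fin 17, C.ev2 (cf a b s₁ s₂ ρ₁ ρ₂ q K l) * C.th ^ (2 * (l : ℕ)) := by
      rw [Polynomial.eval₂_finset_sum]
      refine Finset.sum_congr rfl fun l _ => ?_
      rw [Polynomial.eval₂_mul, Polynomial.eval₂_C, Polynomial.eval₂_pow, Polynomial.eval₂_X]
      rfl
    rw [e2, Finset.sum_congr rfl fun l _ => key l, ← Finset.mul_sum, hC, mul_zero]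

end Pool.Agent.PPE.H6
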