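import Pool.Agent.Helper3_PPE.Stmts

/-!
# Squad PPE: CTB (port of `Helper21_PPZ/Zer.lean`)

A polynomial which vanishes at many good places vanishes.
-/

set_option autoImplicit false

universe u

namespace Pool.Agent.PPE.H6

open MvPolynomial PGH PPX PPZ

/-- the arithmetic of CTB -/
theorem ctb_arith (K q M₀ M d₁ d₂ N₁ N₂ hx hz n s N₀ : ℕ) (_hq : 0 < q) (hK : 20 ≤ K) (hM : M ≤ M₀)
    (hN₀ : N₀ = 4 * q * (K + 2 * K * M₀) + 4 * K) (hN₁ : N₀ ≤ N₁) (hN₂ : N₀ ≤ N₂) (hh : 0 < hx + hz)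
    (h1 : N₁ * hx ≤ n + K * (hx + hz)) (h2 : N₂ * hz ≤ n + K * (hx + hz))
    (h3 : N₀ * (hx + hz) ≤ 4 * n) (hs : s ≤ n)
    (hlt : (q * (d₁ * N₂ + d₂ * N₁) + N₁ * N₂) * n < q * (N₁ * N₂) * s)
    (hle : s ≤ d₁ * hx + d₂ * hz + M * (2 * K * (hx + hz))) : False := by
  set h := hx + hz with hh'
  have hP : 0 < N₁ * N₂ := Nat.mul_pos (by omega) (by omega)
  -- `d₁ N₂ + d₂ N₁ ≤ N₁ N₂`
  have hd : d₁ * N₂ + d₂ * N₁ ≤ N₁ * N₂ := by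
    by_contra hcon
    push Not at hcon
    have h4 : q * (N₁ * N₂) * s ≤ q * (N₁ * N₂) * n := Nat.mul_le_mul_left _ hs
    have h5 : q * (N₁ * N₂) * n ≤ q * (d₁ * N₂ + d₂ * N₁) * n :=
      Nat.mul_le_mul_right _ (Nat.mul_le_mul_left _ hcon.le)
    have h6 : q * (d₁ * N₂ + d₂ * N₁) * n ≤ (q * (d₁ * N₂ + d₂ * N₁) + N₁ * N₂) * n :=
      Nat.mul_le_mul_right _ (Nat.le_add_right _ _)
    omega
  have h4 : N₁ * N₂ * (d₁ * hx + d₂ * hz) ≤ (d₁ * N₂ + d₂ * N₁) * (n + K * h) := by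
    calc N₁ * N₂ * (d₁ * hx + d₂ * hz) = d₁ * N₂ * (N₁ * hx) + d₂ * N₁ * (N₂ * hz) := by ring
      _ ≤ d₁ * N₂ * (n + K * h) + d₂ * N₁ * (n + K * h) :=
        Nat.add_le_add (Nat.mul_le_mul_left _ h1) (Nat.mul_le_mul_left _ h2)
      _ = _ := by ring
  have h5 : q * (N₁ * N₂) * s ≤ q * ((d₁ * N₂ + d₂ * N₁) * (n + K * h)) +
      q * (N₁ * N₂) * (M * (2 * K * h)) := by
    calc q * (N₁ * N₂) * s ≤ q * (N₁ * N₂) * (d₁ * hx + d₂ * hz + M * (2 * K * h)) :=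
        Nat.mul_le_mul_left _ hle
      _ = q * (N₁ * N₂ * (d₁ * hx + d₂ * hz)) + q * (N₁ * N₂) * (M * (2 * K * h)) := by ring
      _ ≤ _ := Nat.add_le_add_right (Nat.mul_le_mul_left _ h4) _
  have h6 : q * ((d₁ * N₂ + d₂ * N₁) * (K * h)) ≤ q * ((N₁ * N₂) * (K * h)) :=
    Nat.mul_le_mul_left _ (Nat.mul_le_mul_right _ hd)
  have h7 : q * (N₁ * N₂) * (M * (2 * K * h)) ≤ q * (N₁ * N₂) * (M₀ * (2 * K * h)) :=
    Nat.mul_le_mul_left _ (Nat.mul_le_mul_right _ hM)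
  have h8 : N₁ * N₂ * n < N₁ * N₂ * (q * (K + 2 * K * M₀) * h) := by
    have e1 : (q * (d₁ * N₂ + d₂ * N₁) + N₁ * N₂) * n =
      q * ((d₁ * N₂ + d₂ * N₁) * n) + N₁ * N₂ * n := by ring
    have e2 : q * ((d₁ * N₂ + d₂ * N₁) * (n + K * h)) = q * ((d₁ * N₂ + d₂ * N₁) * n) +
      q * ((d₁ * N₂ + d₂ * N₁) * (K * h)) := by ring
    have e3 : N₁ * N₂ * (q * (K + 2 * K * M₀) * h) = q * ((N₁ * N₂) * (K * h)) +
      q * (N₁ * N₂) * (M₀ * (2 * K * h)) := by ring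
    rw [e1] at hlt
    rw [e2] at h5
    rw [e3]
    omega
  have h9 : n < q * (K + 2 * K * M₀) * h := Nat.lt_of_mul_lt_mul_left h8
  have h10 : N₀ * h = 4 * (q * (K + 2 * K * M₀) * h) + 4 * K * h := by rw [hN₀]; ring
  omega

/-- CTB -/
theorem ctb (K : ℕ) (hNOD : NodStmt.{u} K) (hZER : ZerStmt.{u}) (hCTA : CtaStmt.{u}) :
    CtbStmt.{u} K := by
  intro M₀ q hq
  refine ⟨4 * q * (K + 2 * K * M₀) + 4 * K, ?_⟩
  intro k _ _ _ N₁ N₂ a b hN₁ hN₂ ha hb C d₁ d₂ M hM Q hQ S hS hz hlt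
  obtain ⟨hfin, hpos, h1, h2, h3, h4, h5, -⟩ := hNOD a b ha hb C
  by_contra hne
  have hSf : S.Finite := hfin.subset hS
  have hcard : S.ncard ≤ C.n := Set.ncard_le_ncard hS hfin
  have hle := hZER (k := k) (C.ev Q) hne hSf.toFinset (fun _ => 1) (fun P hP => by
    rw [Nat.cast_one]
    exact hz P (hSf.mem_toFinset.1 hP))
  rw [Finset.sum_const, smul_eq_mul, mul_one, ← Set.ncard_eq_toFinset_card S hSf] at hle
  have hht := (hCTA (k := k) C.pt d₁ d₂ M Q hQ).2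
  have e0 : C.pt 0 = C.x := rfl
  have e1 : C.pt 1 = C.z := rfl
  have e2 : C.pt 2 = C.th := rfl
  have e3 : C.pt 3 = C.la := rfl
  rw [e0, e1, e2, e3] at hht
  refine ctb_arith K q M₀ M d₁ d₂ N₁ N₂ (ht k C.x) (ht k C.z) C.n S.ncard _ hq C.hK hM rfl hN₁ hN₂ hpos
    h1 h2 (h3 _ (by omega) hN₁ hN₂) hcard hlt (hle.trans (hht.trans ?_))
  refine Nat.add_le_add_left (Nat.mul_le_mul_left _ ?_) _
  have h6 : C.h = ht k C.x + ht k C.z := rfl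
  rw [h6] at h4 h5
  calc ht k C.th + ht k C.la ≤ K * (ht k C.x + ht k C.z) + K * (ht k C.x + ht k C.z) :=
        Nat.add_le_add h4 h5
    _ = 2 * K * (ht k C.x + ht k C.z) := by ring

end Pool.Agent.PPE.H6
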