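import Pool.Agent.Helper3_PPE.Stmts
import Pool.Agent.Helper76_PPZ.Rmn

/-!
# Squad PPE, module RMN (port of `Helper76_PPZ/Rmn.lean`)
-/

set_option autoImplicit false

universe u

namespace Pool.Agent.PPE.H6

open MvPolynomial PGH PPX PPZ
open PPZ.H76 (mem_Qd degreeOf_pderiv_le degreeOf_pderiv_lt pderiv_Qd pderiv_ne pderiv_zero chain
  ln_pderiv exists_inc exists_line)

/-- the bad places for `R` -/
def Bd {K : ℕ} {k : Type u} [Field k] {N₁ N₂ : ℕ} {a : Fin N₁ → k} {b : Fin N₂ → k}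
    (C : BC K a b)
    (R : P4 k) : Set (Place k C.E) := {P | ∃ l j, C.Nd l j P ∧ ln a b l j R ≠ 0}

theorem Bd_sub {K : ℕ} {k : Type u} [Field k] {N₁ N₂ : ℕ} {a : Fin N₁ → k} {b : Fin N₂ → k}
    (C : BC K a b)
    (R : P4 k) : Bd C R ⊆ C.nodes := by
  rintro P ⟨l, j, h, -⟩
  exact ⟨l, j, h⟩

/-- RMN -/
theorem rmn (K : ℕ) (hN : NodStmt.{u} K) (hC : CtbStmt.{u} K) (hV : ValStmt.{u} K)
    (hP : PriStmt.{u} K) (hX : XzeStmt.{u} K) : RmnStmt.{u} K := by
  intro q hq
  obtain ⟨Nc, hNc⟩ := hC (2 * q ^ 2) 8 (by norm_num)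
  obtain ⟨Nx, hNx⟩ := hX (2 * (2 * q ^ 2)) (8 * q) (by omega)
  refine ⟨max (max Nc Nx) (4 * K), ?_⟩
  intro k _ _ _ N₁ N₂ a b h1 h2 ia ib T
  have h1c : Nc ≤ N₁ := le_trans (le_trans (le_max_left _ _) (le_max_left _ _)) h1
  have h2c : Nc ≤ N₂ := le_trans (le_trans (le_max_left _ _) (le_max_left _ _)) h2
  have h1x : Nx ≤ N₁ := le_trans (le_trans (le_max_right _ _) (le_max_left _ _)) h1
  have h2x : Nx ≤ N₂ := le_trans (le_trans (le_max_right _ _) (le_max_left _ _)) h2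
  have h1s : 4 * K ≤ N₁ := le_trans (le_max_right _ _) h1
  have h2s : 4 * K ≤ N₂ := le_trans (le_max_right _ _) h2
  obtain ⟨-, hpl, -⟩ := hP a b T
  -- few bad places
  have few : ∀ R ∈ T.v, R ∈ Qd k (N₁ / q) (N₂ / q) (2 * q ^ 2) →
      ∀ᶠ i in (T.U : Filter T.ι), (8 * q) * (Bd (T.C i) R).ncard ≤ (T.C i).n := by
    intro R hR hRd
    classical
    have hx := hNx a b h1x h2x ia ib (fun l j => (ln a b l j R).roots.toFinset) (by
      intro l j
      refine (Multiset.toFinset_card_le _).trans ((Polynomial.card_roots' _).trans ?_)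
      exact H21.natDegree_lin (a l) (b j) (slope a l) (slope b j) _ _ _ R hRd) T
    have hR' : ∀ᶠ i in (T.U : Filter T.ι), (T.C i).ev R = 0 := hR
    filter_upwards [hx, hR'] with i hxi hRi
    refine le_trans (Nat.mul_le_mul_left _ ?_) hxi
    apply Set.ncard_le_ncard
    · rintro P ⟨l, j, hnd, hne⟩
      refine ⟨l, j, hnd, ?_⟩
      obtain ⟨τ, -, hτ, hval, -, -⟩ := hV a b ia ib (T.C i) l j P hnd
      refine ⟨τ, ?_, hτ 2⟩
      rw [Multiset.mem_toFinset, Polynomial.mem_roots hne]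
      -- the value of the restriction is zero
      by_contra hc
      have hc' : (ln a b l j R).eval τ ≠ 0 := hc
      have h3 := hval (R - C ((ln a b l j R).eval τ)) (by
        have e : ln a b l j (C ((ln a b l j R).eval τ)) =
            Polynomial.C ((ln a b l j R).eval τ) := by
          rw [← algebraMap_eq, AlgHom.commutes]; rfl
        rw [map_sub, e, Polynomial.eval_sub, Polynomial.eval_C, sub_self])
      have h4 : (T.C i).ev (R - C ((ln a b l j R).eval τ)) =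
          -algebraMap k (T.C i).E ((ln a b l j R).eval τ) := by
        have e1 : (T.C i).ev (R - C ((ln a b l j R).eval τ)) = (T.C i).ev R -
            (T.C i).ev (C ((ln a b l j R).eval τ)) := by
          unfold BC.ev; rw [map_sub]
        have e2 : (T.C i).ev (C ((ln a b l j R).eval τ)) =
            algebraMap k (T.C i).E ((ln a b l j R).eval τ) := by
          unfold BC.ev; rw [aeval_C]
        rw [e1, e2, hRi, zero_sub]
      rw [h4] at h3
      have h5 := h3.neg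
      rw [neg_neg] at h5
      exact Place.not_ge_one_const P hc' h5
    · refine (hN a b ia ib (T.C i)).1.subset ?_
      rintro P ⟨l, j, hnd, -⟩
      exact ⟨l, j, hnd⟩
  -- polynomials vanishing at almost all places
  have big : ∀ R : P4 k,
      (∀ᶠ i in (T.U : Filter T.ι), (8 * q) * (Bd (T.C i) R).ncard ≤ (T.C i).n) →
      ∀ Q ∈ Qd k (N₁ / q) (N₂ / q) (2 * q ^ 2),
      (∀ l j, ln a b l j R = 0 → ln a b l j Q = 0) → Q ∈ T.v := by
    intro R hR Q hQd hQ
    change ∀ᶠ i in (T.U : Filter T.ι), (T.C i).ev Q = 0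
    filter_upwards [hR] with i hRi
    obtain ⟨hfin, hh0, -, -, hNh, -⟩ := hN a b ia ib (T.C i)
    have hK20 : 20 ≤ K := (T.C i).hK
    have hn0 : 0 < (T.C i).n := by
      have h9 := hNh (4 * K) le_rfl h1s h2s
      have h10 : 0 < 4 * K * (T.C i).h := Nat.mul_pos (by omega) hh0
      omega
    apply hNc a b h1c h2c ia ib (T.C i) (N₁ / q) (N₂ / q) (2 * q ^ 2) le_rfl Q hQd
      ((T.C i).nodes \ Bd (T.C i) R) Set.sdiff_subset
    · rintro P ⟨⟨l, j, hnd⟩, hbd⟩
      have hz : ln a b l j R = 0 := by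
        by_contra h
        exact hbd ⟨l, j, hnd, h⟩
      obtain ⟨τ, -, -, hval, -, -⟩ := hV a b ia ib (T.C i) l j P hnd
      apply hval
      rw [hQ l j hz, Polynomial.eval_zero]
    · obtain ⟨B, hB⟩ : ∃ B, B = (Bd (T.C i) R).ncard := ⟨_, rfl⟩
      have hS : (T.C i).n ≤ ((T.C i).nodes \ Bd (T.C i) R).ncard + B := by
        have := Set.ncard_sdiff_add_ncard_of_subset (Bd_sub (T.C i) R) hfin
        rw [hB, this]
        exact le_rfl
      rw [← hB] at hRi
      obtain ⟨S, hSe⟩ : ∃ S, S = ((T.C i).nodes \ Bd (T.C i) R).ncard := ⟨_, rfl⟩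
      rw [← hSe] at hS ⊢
      obtain ⟨n, hn⟩ : ∃ n, n = (T.C i).n := ⟨_, rfl⟩
      rw [← hn] at hRi hS hn0 ⊢
      have hB32 : 32 * B ≤ n := by
        have : 32 * B ≤ 8 * q * B := Nat.mul_le_mul_right _ (by omega)
        omega
      have d1 : 4 * (N₁ / q) ≤ N₁ :=
        (Nat.mul_le_mul_right _ hq).trans (Nat.mul_div_le N₁ q)
      have d2 : 4 * (N₂ / q) ≤ N₂ :=
        (Nat.mul_le_mul_right _ hq).trans (Nat.mul_div_le N₂ q)
      have d3 : 4 * ((N₁ / q) * N₂) ≤ N₁ * N₂ := by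
        have := Nat.mul_le_mul_right N₂ d1
        rwa [mul_assoc] at this
      have d4 : 4 * ((N₂ / q) * N₁) ≤ N₁ * N₂ := by
        have := Nat.mul_le_mul_right N₁ d2
        rw [mul_assoc] at this
        rwa [mul_comm N₁ N₂]
      have d5 : 8 * ((N₁ / q) * N₂ + (N₂ / q) * N₁) + N₁ * N₂ ≤ 5 * (N₁ * N₂) := by omega
      have d6 : 5 * n < 8 * S := by omega
      have d7 : 0 < N₁ * N₂ := Nat.mul_pos (by omega) (by omega)
      calc (8 * ((N₁ / q) * N₂ + (N₂ / q) * N₁) + N₁ * N₂) * n ≤ 5 * (N₁ * N₂) * n :=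
            Nat.mul_le_mul_right _ d5
        _ = (N₁ * N₂) * (5 * n) := by ring
        _ < (N₁ * N₂) * (8 * S) := Nat.mul_lt_mul_of_pos_left d6 d7
        _ = 8 * (N₁ * N₂) * S := by ring
  -- (a) no equation without `Λ`
  have pa : ∀ d : ℕ, ∀ R ∈ T.v, R ≠ 0 → R ∈ Qd k (N₁ / q) (N₂ / q) (2 * q ^ 2) →
      degreeOf 3 R = 0 → degreeOf 2 R ≤ d → False := by
    intro d
    induction d with
    | zero =>
      intro R hR hR0 _ h3 h2'
      obtain ⟨F, hF⟩ := exists_inc R (Nat.le_zero.mp h2') h3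
      rw [← hF] at hR hR0
      apply hR0
      rw [hpl F hR, map_zero]
    | succ d ih =>
      intro R hR hR0 hRd h3 h2'
      by_cases hd : degreeOf 2 R = 0
      · exact ih R hR hR0 hRd h3 (by omega)
      · refine ih (pderiv 2 R) ?_ (pderiv_ne 2 R hd) (pderiv_Qd 2 _ _ _ R hRd) ?_ ?_
        · exact big R (few R hR hRd) _ (pderiv_Qd 2 _ _ _ R hRd) fun l j h =>
            ln_pderiv a b l j R h3 h
        · exact Nat.le_zero.mp ((degreeOf_pderiv_le 2 3 R).trans h3.le)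
        · exact (degreeOf_pderiv_lt 2 R).trans (by omega)
  have pb : ∀ d : ℕ, ∀ R ∈ T.v, R ≠ 0 → R ∈ Qd k (N₁ / q) (N₂ / q) (2 * q ^ 2) →
      degreeOf 3 R ≤ d → ∃ R' ∈ T.v, R' ∈ Qd k (N₁ / q) (N₂ / q) (2 * q ^ 2) ∧
        pderiv 3 R' ∉ T.v := by
    intro d
    induction d with
    | zero =>
      intro R hR hR0 hRd h3
      exact (pa _ R hR hR0 hRd (Nat.le_zero.mp h3) le_rfl).elim
    | succ d ih =>
      intro R hR hR0 hRd h3
      by_cases hv : pderiv 3 R ∈ T.v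
      · have hd : degreeOf 3 R ≠ 0 := fun h => pa _ R hR hR0 hRd h le_rfl
        exact ih (pderiv 3 R) hv (pderiv_ne 3 R hd) (pderiv_Qd 3 _ _ _ R hRd)
          ((degreeOf_pderiv_lt 3 R).trans (by omega))
      · exact ⟨R, hR, hRd, hv⟩
  -- an equation
  obtain ⟨Q, hQd, hQ0, hQl⟩ := exists_line a b q (by omega)
  have hQv : Q ∈ T.v := by
    refine big 0 ?_ Q hQd (fun l j _ => hQl l j)
    refine Filter.Eventually.of_forall fun i => ?_
    have : Bd (T.C i) (0 : P4 k) = ∅ := by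
      apply Set.eq_empty_of_forall_notMem
      rintro P ⟨l, j, -, h⟩
      exact h (map_zero _)
    rw [this, Set.ncard_empty, mul_zero]
    exact Nat.zero_le _
  obtain ⟨R, hR, hRd, hRn⟩ := pb _ Q hQv hQ0 hQd le_rfl
  refine ⟨R, hR, hRd, hRn, ?_⟩
  filter_upwards [few R hR hRd] with i hi
  refine le_trans ?_ hi
  exact Nat.mul_le_mul_right _ (by omega)

end Pool.Agent.PPE.H6
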