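import Pool.Agent.Helper3_PPE.Stmts
import Pool.Agent.Helper27_PPZ.Tsx

/-!
# Squad PPE, module TSX: the functions `T` and `S` (port of `Helper27_PPZ/Tsx.lean`)
-/

set_option autoImplicit false

universe u

namespace Pool.Agent.PPE.H6

open MvPolynomial PGH PPX PPZ
open PPZ.H27 hiding small_ineq tsx

theorem small_ineq (K q q' M N₁ N₂ d₁ d₂ n h hx hz hθ hΛ H : ℕ) (hq : q' = 64 * q)
    (h1 : q' * d₁ ≤ N₁) (h2 : q' * d₂ ≤ N₂) (h3 : N₁ * hx ≤ n + K * h) (h4 : N₂ * hz ≤ n + K * h)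
    (h5 : hθ ≤ K * h) (h6 : hΛ ≤ K * h) (h7 : 4 * (2 * K + 2 * K * q' * M) * h ≤ 4 * n)
    (hH : H ≤ d₁ * hx + d₂ * hz + M * (hθ + hΛ)) : q * H ≤ n := by
  have a1 : q' * H ≤ 3 * n := by
    calc q' * H ≤ q' * (d₁ * hx + d₂ * hz + M * (hθ + hΛ)) := by gcongr
      _ = (q' * d₁) * hx + (q' * d₂) * hz + q' * M * (hθ + hΛ) := by ring
      _ ≤ N₁ * hx + N₂ * hz + q' * M * (K * h + K * h) := by gcongr
      _ ≤ (n + K * h) + (n + K * h) + q' * M * (K * h + K * h) := by gcongr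
      _ = 2 * n + (2 * K + 2 * K * q' * M) * h := by ring
      _ ≤ 3 * n := by
          have : 4 * ((2 * K + 2 * K * q' * M) * h) ≤ 4 * n := by
            rw [← mul_assoc]; exact h7
          omega
  rw [hq, mul_assoc] at a1
  omega

/-- TSX -/
theorem tsx (K : ℕ) (nod : NodStmt.{u} K) (cta : CtaStmt.{u}) (ctb : CtbStmt.{u} K)
    (val : ValStmt.{u} K) (pri : PriStmt.{u} K) (rmn : RmnStmt.{u} K) : TsxStmt.{u} K := by
  classical
  intro q hq
  obtain ⟨q', hq'⟩ : ∃ q', q' = 64 * q := ⟨_, rfl⟩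
  obtain ⟨M, hM⟩ : ∃ M, M = 2 * q' ^ 2 + 1 := ⟨_, rfl⟩
  obtain ⟨n1, h1⟩ := rmn q' (by omega)
  obtain ⟨n2, h2⟩ := ctb M 4 (by omega)
  refine ⟨n1 + n2 + 32 + 4 * K + 4 * (2 * K + 2 * K * q' * M), ?_⟩
  intro k _ _ _ N₁ N₂ a b hN₁ hN₂ ha hb T
  obtain ⟨R, hR, hRQ, hR3, hRm⟩ := h1 a b (by omega) (by omega) ha hb T
  obtain ⟨A, B, hA, hB, hB0, hAB⟩ := exists_AB (N := N₁) (by omega) a (slope a) ha
  obtain ⟨A', B', hA', hB', hB'0, hAB'⟩ := exists_AB (N := N₂) (by omega) b (slope b) hb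
  obtain ⟨A₁, B₁, g, hg, hB₁, hco, hAe, hBe⟩ := exists_coprime A B hB0
  obtain ⟨A₁', B₁', g', hg', hB₁', hco', hAe', hBe'⟩ := exists_coprime A' B' hB'0
  refine ⟨-A₁, B₁, -A₁', B₁', B₁.roots.toFinset, B₁'.roots.toFinset, hB₁, hB₁', ?_, ?_, ?_⟩
  · intro c
    rw [Multiset.mem_toFinset, Polynomial.mem_roots hB₁]
  · intro c
    rw [Multiset.mem_toFinset, Polynomial.mem_roots hB₁']
  filter_upwards [hRm, (pri a b T).2.2 _ hR3] with i hi1 hi2
  obtain ⟨C, hC⟩ : ∃ C, C = T.C i := ⟨_, rfl⟩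
  rw [← hC] at hi1 hi2 ⊢
  obtain ⟨hfin, hh0, hx, hz, hN, hth, hla, -, -, hconst, hth0⟩ := nod a b ha hb C
  have hK20 : 20 ≤ K := C.hK
  have hn0 : 0 < C.n := by
    have h9 := hN (4 * K) le_rfl (by omega) (by omega)
    have h10 : 0 < 4 * K * C.h := Nat.mul_pos (by omega) hh0
    omega
  have hN7 : 4 * (2 * K + 2 * K * q' * M) * C.h ≤ 4 * C.n := by
    refine le_trans ?_ (hN (4 * (2 * K + 2 * K * q' * M)) (by omega) (by omega) (by omega))
    exact le_rfl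
  -- the good places with a line in `R = 0`
  obtain ⟨S, hS⟩ : ∃ S : Set (Place k C.E), S = {P | ∃ l j, C.Nd l j P ∧ ln a b l j R = 0} :=
    ⟨_, rfl⟩
  have hSn : S ⊆ C.nodes := by
    rw [hS]
    rintro P ⟨l, j, h, -⟩
    exact ⟨l, j, h⟩
  have hcard : C.n ≤ S.ncard + {P | ∃ l j, C.Nd l j P ∧ ln a b l j R ≠ 0}.ncard := by
    have hS' : {P | ∃ l j, C.Nd l j P ∧ ln a b l j R ≠ 0} ⊆ C.nodes := by
      rintro P ⟨l, j, h, -⟩
      exact ⟨l, j, h⟩
    have hun : C.nodes ⊆ S ∪ {P | ∃ l j, C.Nd l j P ∧ ln a b l j R ≠ 0} := by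
      rintro P ⟨l, j, h⟩
      by_cases h0 : ln a b l j R = 0
      · left
        rw [hS]
        exact ⟨l, j, h, h0⟩
      · right
        exact ⟨l, j, h, h0⟩
    exact (Set.ncard_le_ncard hun ((hfin.subset hSn).union (hfin.subset hS'))).trans
      (Set.ncard_union_le _ _)
  have hvan : ∀ Q : P4 k, (∀ l j, ln a b l j R = 0 → ln a b l j Q = 0) →
      ∀ P ∈ S, P.Ge 1 (C.ev Q) := by
    intro Q hQ P hP
    rw [hS] at hP
    obtain ⟨l, j, h, h0⟩ := hP
    obtain ⟨τ, -, -, h3, -⟩ := val a b ha hb C l j P h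
    apply h3
    rw [hQ l j h0, Polynomial.eval_zero]
  have hR3Q := pderiv_mem hRQ 3
  have hR2Q := pderiv_mem hRQ 2
  have hq0 : 0 < q' := by omega
  have hd1 : q' * (N₁ / q') ≤ N₁ := Nat.mul_div_le _ _
  have hd2 : q' * (N₂ / q') ≤ N₂ := Nat.mul_div_le _ _
  have hd1' : 2 * q' * (N₁ / 2 + N₁ / q') ≤ (q' + 2) * N₁ := by
    have h3 : 2 * (N₁ / 2) ≤ N₁ := Nat.mul_div_le _ _
    calc 2 * q' * (N₁ / 2 + N₁ / q') = q' * (2 * (N₁ / 2)) + 2 * (q' * (N₁ / q')) := by ring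
      _ ≤ q' * N₁ + 2 * N₁ := by gcongr
      _ = (q' + 2) * N₁ := by ring
  have hd2' : 2 * q' * (N₂ / 2 + N₂ / q') ≤ (q' + 2) * N₂ := by
    have h3 : 2 * (N₂ / 2) ≤ N₂ := Nat.mul_div_le _ _
    calc 2 * q' * (N₂ / 2 + N₂ / q') = q' * (2 * (N₂ / 2)) + 2 * (q' * (N₂ / q')) := by ring
      _ ≤ q' * N₂ + 2 * N₂ := by gcongr
      _ = (q' + 2) * N₂ := by ring
  -- the first polynomial
  have hQ1 : C.ev (Polynomial.aeval (X 0 : P4 k) A * pderiv 3 R +
      Polynomial.aeval (X 0 : P4 k) B * pderiv 2 R) = 0 := by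
    refine h2 a b (by omega) (by omega) ha hb C (N₁ / 2 + N₁ / q') (N₂ / q') M le_rfl _ ?_ S hSn
      (hvan _ ?_) ?_
    · refine Submodule.add_mem _ ?_ ?_
      · exact Qd_mono le_rfl (by omega) (by omega) (mul_mem (aeval0_mem A _ hA) hR3Q)
      · exact Qd_mono le_rfl (by omega) (by omega) (mul_mem (aeval0_mem B _ hB) hR2Q)
    · intro l j h0
      rw [map_add, map_mul, map_mul, ln_aeval0, ln_aeval0, ln_pderiv a b l j h0, ← mul_assoc,
        ← add_mul, ← Polynomial.C_mul, ← Polynomial.C_add]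
      have h3 := hAB l
      rw [mul_comm (Polynomial.eval (a l) B), h3, Polynomial.C_0, zero_mul]
    · exact count_ineq q' N₁ N₂ _ _ C.n _ _ (by omega) hd1' hd2 hn0 (by omega) (by omega)
        hcard hi1
  -- the second polynomial
  have hR4Q : X 3 * pderiv 3 R + X 2 * pderiv 2 R ∈ Qd k (N₁ / q') (N₂ / q') M := by
    refine Submodule.add_mem _ ?_ ?_
    · exact Qd_mono (by omega) (by omega) (by omega) (mul_mem X3_mem hR3Q)
    · exact Qd_mono (by omega) (by omega) (by omega) (mul_mem X2_mem hR2Q)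
  have hQ2 : C.ev (Polynomial.aeval (X 1 : P4 k) A' * pderiv 3 R +
      Polynomial.aeval (X 1 : P4 k) B' * (X 3 * pderiv 3 R + X 2 * pderiv 2 R)) = 0 := by
    refine h2 a b (by omega) (by omega) ha hb C (N₁ / q') (N₂ / 2 + N₂ / q') M le_rfl _ ?_ S hSn
      (hvan _ ?_) ?_
    · refine Submodule.add_mem _ ?_ ?_
      · exact Qd_mono (by omega) le_rfl (by omega) (mul_mem (aeval1_mem A' _ hA') hR3Q)
      · exact Qd_mono (by omega) le_rfl (by omega) (mul_mem (aeval1_mem B' _ hB') hR4Q)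
    · intro l j h0
      have h3 := hAB' j
      have h4 : Polynomial.C (A'.eval (b j)) +
          Polynomial.C (slope b j) * Polynomial.C (B'.eval (b j)) = 0 := by
        rw [← Polynomial.C_mul, ← Polynomial.C_add, h3, Polynomial.C_0]
      rw [map_add, map_mul, map_mul, map_add, map_mul, map_mul, ln_aeval1, ln_aeval1,
        ln_pderiv a b l j h0, ln_X3, ln_X2]
      linear_combination h4 * ln a b l j (pderiv 3 R)
    · have h5 := count_ineq q' N₂ N₁ _ _ C.n _ _ (by omega) hd2' hd1 hn0 (by omega) (by omega)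
        hcard hi1
      have e1 : N₁ / q' * N₂ + (N₂ / 2 + N₂ / q') * N₁ =
          (N₂ / 2 + N₂ / q') * N₁ + N₁ / q' * N₂ := add_comm _ _
      rw [e1, mul_comm N₁ N₂]
      exact h5
  -- evaluation
  have hxt : Transcendental k C.x := by
    by_contra h
    obtain ⟨c, hc⟩ := not_transcendental h
    exact (hconst c).1 hc
  have hzt : Transcendental k C.z := by
    by_contra h
    obtain ⟨c, hc⟩ := not_transcendental h
    exact (hconst c).2 hc
  have hevX0 : ∀ A : Polynomial k, C.ev (Polynomial.aeval (X 0 : P4 k) A) =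
      Polynomial.aeval C.x A := by
    intro A
    unfold BC.ev
    rw [← Polynomial.aeval_algHom_apply, aeval_X]
    rfl
  have hevX1 : ∀ A : Polynomial k, C.ev (Polynomial.aeval (X 1 : P4 k) A) =
      Polynomial.aeval C.z A := by
    intro A
    unfold BC.ev
    rw [← Polynomial.aeval_algHom_apply, aeval_X]
    rfl
  have hevX2 : C.ev (X 2) = C.th := by
    unfold BC.ev
    rw [aeval_X]
    rfl
  have hevX3 : C.ev (X 3) = C.la := by
    unfold BC.ev
    rw [aeval_X]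
    rfl
  have hevm : ∀ p r : P4 k, C.ev (p * r) = C.ev p * C.ev r := fun p r => by
    unfold BC.ev
    exact map_mul _ _ _
  have heva : ∀ p r : P4 k, C.ev (p + r) = C.ev p + C.ev r := fun p r => by
    unfold BC.ev
    exact map_add _ _ _
  have hBx : Polynomial.aeval C.x B₁ ≠ 0 := fun h => hB₁ (transcendental_iff.1 hxt _ h)
  have hBz : Polynomial.aeval C.z B₁' ≠ 0 := fun h => hB₁' (transcendental_iff.1 hzt _ h)
  have hgx : Polynomial.aeval C.x g ≠ 0 := fun h => hg (transcendental_iff.1 hxt _ h)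
  have hgz : Polynomial.aeval C.z g' ≠ 0 := fun h => hg' (transcendental_iff.1 hzt _ h)
  have hy1 : C.ev (pderiv 2 R) / C.ev (pderiv 3 R) =
      Polynomial.aeval C.x (-A₁) / Polynomial.aeval C.x B₁ := by
    rw [heva, hevm, hevm, hevX0, hevX0, hAe, hBe, map_mul, map_mul] at hQ1
    rw [div_eq_div_iff hi2 hBx, map_neg]
    apply mul_left_cancel₀ hgx
    linear_combination hQ1
  have hy2 : C.ev (X 3 * pderiv 3 R + X 2 * pderiv 2 R) / C.ev (pderiv 3 R) =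
      Polynomial.aeval C.z (-A₁') / Polynomial.aeval C.z B₁' := by
    rw [heva, hevm, hevm, hevX1, hevX1, hAe', hBe', map_mul, map_mul] at hQ2
    rw [div_eq_div_iff hi2 hBz, map_neg]
    apply mul_left_cancel₀ hgz
    linear_combination hQ2
  have hpt : C.pt 0 = C.x ∧ C.pt 1 = C.z ∧ C.pt 2 = C.th ∧ C.pt 3 = C.la := ⟨rfl, rfl, rfl, rfl⟩
  refine ⟨?_, ?_, ?_⟩
  · rw [← hy1, ← hy2, heva, hevm, hevm, hevX2, hevX3]
    field_simp
    ring
  · have h3 := card_mul_ht_le hxt (-A₁) B₁ hB₁ hco.neg_left B₁.roots.toFinset (fun c hc => by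
      rw [Multiset.mem_toFinset, Polynomial.mem_roots hB₁] at hc
      exact hc)
    have h4 := ht_div_le C.pt (N₁ / q') (N₂ / q') M (C.ev (pderiv 2 R)) (C.ev (pderiv 3 R)) hi2
      (cta C.pt _ _ _ _ (Qd_mono le_rfl le_rfl (by omega) hR2Q)).1
      (cta C.pt _ _ _ _ (Qd_mono le_rfl le_rfl (by omega) hR3Q)).1
    rw [hy1, hpt.1, hpt.2.1, hpt.2.2.1, hpt.2.2.2] at h4
    rw [mul_assoc]
    exact small_ineq K q q' M N₁ N₂ _ _ C.n C.h _ _ _ _ _ hq' hd1 hd2 hx hz hth hla hN7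
      (h3.trans h4)
  · have h3 := card_mul_ht_le hzt (-A₁') B₁' hB₁' hco'.neg_left B₁'.roots.toFinset (fun c hc => by
      rw [Multiset.mem_toFinset, Polynomial.mem_roots hB₁'] at hc
      exact hc)
    have h4 := ht_div_le C.pt (N₁ / q') (N₂ / q') M
      (C.ev (X 3 * pderiv 3 R + X 2 * pderiv 2 R)) (C.ev (pderiv 3 R)) hi2
      (cta C.pt _ _ _ _ hR4Q).1
      (cta C.pt _ _ _ _ (Qd_mono le_rfl le_rfl (by omega) hR3Q)).1
    rw [hy2, hpt.1, hpt.2.1, hpt.2.2.1, hpt.2.2.2] at h4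
    rw [mul_assoc]
    exact small_ineq K q q' M N₁ N₂ _ _ C.n C.h _ _ _ _ _ hq' hd1 hd2 hx hz hth hla hN7
      (h3.trans h4)

end Pool.Agent.PPE.H6
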