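import Pool.Agent.Helper3_PPE.Stmts
import Pool.Agent.Helper43_PPZ.Val

/-!
Squad PPE, module VAL: the values at a good place (port of `Helper43_PPZ/Val.lean`).
-/

set_option autoImplicit false

universe u

namespace Pool.Agent.PPE.H6

open MvPolynomial PGH PPX PPZ PPZ.H43

/-- VAL -/
theorem val (K : ℕ) : ValStmt.{u} K := by
  classical
  intro k _ _ _ N₁ N₂ a b ha hb C i j P hN
  have hD : ∀ c : k, C.D (algebraMap k C.E c) = 0 := fun c => (C.ker _).2 ⟨c, rfl⟩
  obtain ⟨l1, l2, l3⟩ := H75.loc P C.D a b C.x C.z i j ha hb (fun _ => hD _) (fun _ => hD _) hN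
  obtain ⟨-, hx, hz⟩ := hN
  have hz0 : C.z - algebraMap k C.E (b j) ≠ 0 := by
    intro h
    rw [h, P.ord_zero] at hz
    exact absurd hz (by norm_num)
  have hx0 : C.x - algebraMap k C.E (a i) ≠ 0 := by
    intro h
    rw [h, P.ord_zero] at hx
    exact absurd hx (by norm_num)
  have hz1 : Cg P C.z (b j) := (P.ge_iff hz0).mpr hz.ge
  have hx1 : Cg P C.x (a i) := (P.ge_iff hx0).mpr hx.ge
  obtain ⟨η, hη⟩ : ∃ η, η = (C.x - algebraMap k C.E (a i)) / (C.z - algebraMap k C.E (b j)) :=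
    ⟨_, rfl⟩
  have hη0 : η ≠ 0 := by rw [hη]; exact div_ne_zero hx0 hz0
  have hηord : P.ord η = 0 := by rw [hη, P.ord_div hx0 hz0, hx, hz]; norm_num
  have hηge : P.Ge 0 η := (P.ge_iff hη0).mpr hηord.ge
  have hηn : ¬ P.Ge 1 η := by
    rw [P.ge_iff hη0, hηord]
    norm_num
  rw [← hη] at l1
  change P.Ge 1 (C.th - η) at l1
  change P.Ge 1 (C.la - (algebraMap k C.E (slope b j) - algebraMap k C.E (slope a i) * C.th)) at l3
  have hθge : P.Ge 0 C.th := by
    have := (l1.mono (by norm_num : (0 : ℤ) ≤ 1)).add hηge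
    rwa [sub_add_cancel] at this
  obtain ⟨τ, hτ⟩ : ∃ τ, Cg P C.th τ := P.exists_res hθge
  have hτ0 : τ ≠ 0 := by
    rintro rfl
    unfold Cg at hτ
    rw [map_zero, sub_zero] at hτ
    have := hτ.sub l1
    rw [sub_sub_cancel] at this
    exact hηn this
  have hla : Cg P C.la (slope b j - slope a i * τ) := by
    have h1 : Cg P (algebraMap k C.E (slope a i) * C.th) (slope a i * τ) :=
      (Cg.const _).mul hτ
    unfold Cg at h1 ⊢
    have e : C.la - algebraMap k C.E (slope b j - slope a i * τ) =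
        (C.la - (algebraMap k C.E (slope b j) - algebraMap k C.E (slope a i) * C.th)) -
        (algebraMap k C.E (slope a i) * C.th - algebraMap k C.E (slope a i * τ)) := by
      rw [map_sub]; ring
    rw [e]
    exact l3.sub h1
  have hpt : ∀ v, Cg P (C.pt v) (pnt a b i j τ v) := by
    intro v
    fin_cases v
    · exact hx1
    · exact hz1
    · exact hτ
    · exact hla
  refine ⟨τ, hτ0, hpt, ?_, ?_, ?_⟩
  · intro Q hQ
    have h1 := Cg.eval hpt Q
    rw [← ln_eval, hQ] at h1
    unfold Cg at h1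
    rwa [map_zero, sub_zero] at h1
  · intro r Q hQ
    have h1 := ge_jet (P := P) (e := fun v => C.pt v - algebraMap k C.E (pnt a b i j τ v)) hpt
      (tay (pnt a b i j τ) Q) hQ
    rw [tay_eval] at h1
    exact h1
  · have hG : Cg P (∏ l ∈ Finset.univ.erase j, (C.z - algebraMap k C.E (b l))) (dpr b j) := by
      refine Cg.prod _ fun l _ => ?_
      have h1 := hz1.add (Cg.const (P := P) (-b l))
      rwa [map_neg, ← sub_eq_add_neg, ← sub_eq_add_neg] at h1
    have hF : Cg P (∏ l ∈ Finset.univ.erase i, (C.x - algebraMap k C.E (a l))) (dpr a i) := by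
      refine Cg.prod _ fun l _ => ?_
      have h1 := hx1.add (Cg.const (P := P) (-a l))
      rwa [map_neg, ← sub_eq_add_neg, ← sub_eq_add_neg] at h1
    have hF0 : dpr a i ≠ 0 := by
      refine Finset.prod_ne_zero_iff.2 fun l hl => ?_
      rw [sub_ne_zero]
      exact fun h => Finset.ne_of_mem_erase hl (ha h).symm
    have hu : Cg P (C.th * η⁻¹) 1 := by
      unfold Cg
      have e : C.th * η⁻¹ - algebraMap k C.E 1 = (C.th - η) * η⁻¹ := by
        rw [map_one, sub_mul, mul_inv_cancel₀ hη0]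
      rw [e]
      exact l1.mul' (H75.ge_inv P hηord) (by norm_num)
    obtain ⟨G, hGd⟩ : ∃ G, G = ∏ l ∈ Finset.univ.erase j, (C.z - algebraMap k C.E (b l)) := ⟨_, rfl⟩
    obtain ⟨F, hFd⟩ : ∃ F, F = ∏ l ∈ Finset.univ.erase i, (C.x - algebraMap k C.E (a l)) := ⟨_, rfl⟩
    have hFne : F ≠ 0 := by rw [hFd]; exact (hF.unit hF0).1
    have hg : C.g = (C.z - algebraMap k C.E (b j)) * G := by
      rw [hGd]; exact (Finset.mul_prod_erase _ _ (Finset.mem_univ j)).symm
    have hf : C.f = (C.x - algebraMap k C.E (a i)) * F := by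
      rw [hFd]; exact (Finset.mul_prod_erase _ _ (Finset.mem_univ i)).symm
    rw [← hGd] at hG
    rw [← hFd] at hF
    have h1 : Cg P ((C.th * η⁻¹) * (G * F⁻¹)) (dpr b j / dpr a i) := by
      have := hu.mul (hG.mul (hF.inv hF0))
      rw [one_mul] at this
      rw [div_eq_mul_inv (dpr b j)]
      exact this
    have h2 := h1.pow 2
    have e : C.th * C.ph = ((C.th * η⁻¹) * (G * F⁻¹)) ^ 2 := by
      unfold BC.ph
      rw [hg, hf, hη, inv_div]
      field_simp
    unfold Cg at h2
    rw [e]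
    exact h2

end Pool.Agent.PPE.H6
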