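import Pool.Agent.Helper3_PPE.Stmts
import Pool.Agent.Helper85_PPZ.Xze

/-! Squad PPE, module XZE: few good places have a prescribed value of `θ` (with the parameter
`K`).  Port of `Pool.Agent.Helper85_PPZ.Xze`. -/

set_option autoImplicit false

universe u

namespace Pool.Agent.PPE.H6

open MvPolynomial PPX PPZ

theorem xze (K : ℕ) (_hpri : PPE.PriStmt.{u} K) (hvar : PPE.VarStmt.{u} K)
    (htwo : PPZ.TwoStmt.{u}) (hzet : PPZ.ZetStmt.{u}) (hpol : PPZ.PolStmt.{u}) :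
    PPE.XzeStmt.{u} K := by
  intro B q hq
  set M' : ℕ := B * (9 * q) ^ 4 with hM'
  obtain ⟨N₀, hN₀⟩ := hvar q (8 * M' + 8) hq
  refine ⟨max N₀ 1, ?_⟩
  intro k _ _ _ N₁ N₂ a b hN₁ hN₂ ha hb Θ hΘ T
  have hinf : Infinite k := inferInstance
  by_contra hcon
  rw [← Ultrafilter.eventually_not] at hcon
  have hfix : ∀ᶠ i in (T.U : Filter T.ι), (T.C i).n < q * ((T.C i).fixed Θ).ncard := by
    filter_upwards [hcon] with i hi
    exact not_le.1 hi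
  have h1 : N₀ ≤ N₁ := (le_max_left _ _).trans hN₁
  have h2 : N₀ ≤ N₂ := (le_max_left _ _).trans hN₂
  have h3 : 0 < N₁ := (le_max_right _ _).trans hN₁
  have h4 : 0 < N₂ := (le_max_right _ _).trans hN₂
  have hv := hN₀ a b h1 h2 ha hb Θ T hfix
  obtain ⟨R, hR, Q, hQ, hRi, hRQ, hRd, hQd⟩ := htwo a b Θ (9 * q) (8 * M' + 8) T.v hv B hΘ h3 h4 M'
    le_rfl (by omega)
  have hRd' := (PPX.H63.mem_box _ _).1 hRd
  have hQd' := (PPX.H63.mem_box _ _).1 hQd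
  obtain ⟨C, hC, hCV, _, hCm⟩ := PPZ.H85.cho1 T.v hv.prime hv.plane M' R Q hR hQ hRi hRQ (hRd' 2) (hRd' 3)
    (hQd' 2) (hQd' 3)
  have hlt := hzet a b Θ (9 * q) (8 * M' + 8) T.v hv B hΘ h3 h4 M' le_rfl le_rfl R Q C hR hQ hRi hRQ
    hRd hQd hC hCV hCm
  have hle := hpol a b Θ (9 * q) (8 * M' + 8) T.v hv hb R Q C hR hQ hRi hRQ hC hCV
  omega

end Pool.Agent.PPE.H6
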